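import Mathlib

/-!
# Maps preserving the relations `B u v = 0` and `B u v = 1`
-/

set_option autoImplicit false

namespace Pool.Agent.Helper52.IG

open Submodule

variable {K V : Type*} [Field K] [AddCommGroup V] [Module K V] {B : LinearMap.BilinForm K V}

/-- If `B u x = 0` implies `B v x = 0` then `v` is a multiple of `u`. -/
theorem dep (hnd : B.Nondegenerate) {u v : V} (h : ∀ x, B u x = 0 → B v x = 0) :
    ∃ c : K, v = c • u := by
  have h1 : B v ∈ span K (Set.range (fun _ : Unit => B u)) := by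
    apply mem_span_of_iInf_ker_le_ker
    intro x hx
    simp only [iInf_const, LinearMap.mem_ker] at hx ⊢
    exact h x hx
  simp only [Set.range_const, mem_span_singleton] at h1
  obtain ⟨c, hc⟩ := h1
  refine ⟨c, ?_⟩
  rw [← sub_eq_zero]
  refine hnd.1 _ fun y => ?_
  rw [map_sub, map_smul, hc, sub_self]
  rfl

/-- If `B u x = 0 = B v x` implies `B w x = 0` then `w` is a combination of `u` and `v`. -/
theorem dep₂ (hnd : B.Nondegenerate) {u v w : V} (h : ∀ x, B u x = 0 → B v x = 0 → B w x = 0) :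
    ∃ a b : K, w = a • u + b • v := by
  have h1 : B w ∈ span K (Set.range ![B u, B v]) := by
    apply mem_span_of_iInf_ker_le_ker
    intro x hx
    simp only [mem_iInf, LinearMap.mem_ker] at hx ⊢
    exact h x (hx 0) (hx 1)
  rw [show Set.range ![B u, B v] = {B u, B v} by
    ext z; simp [or_comm], mem_span_pair] at h1
  obtain ⟨a, b, hab⟩ := h1
  refine ⟨a, b, ?_⟩
  rw [← sub_eq_zero]
  refine hnd.1 _ fun y => ?_
  rw [map_sub, map_add, map_smul, map_smul, hab, sub_self]
  rfl

/-- If `v` is not a multiple of `u`, there is `x` with `B u x = 0` and `B v x = 1`. -/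
theorem exists_zero_one (hnd : B.Nondegenerate) {u v : V} (h : ¬ ∃ c : K, v = c • u) :
    ∃ x, B u x = 0 ∧ B v x = 1 := by
  by_contra hcon
  push Not at hcon
  refine h (dep hnd fun x hx => ?_)
  by_contra hv
  refine hcon ((B v x)⁻¹ • x) ?_ ?_
  · rw [map_smul, hx, smul_zero]
  · rw [map_smul, smul_eq_mul, inv_mul_cancel₀ hv]

variable {T : V → V}

section
variable (hnd : B.Nondegenerate) (hsurj : Function.Surjective T)
  (h0 : ∀ u v, B (T u) (T v) = 0 ↔ B u v = 0)
  (h1 : ∀ u v, B (T u) (T v) = 1 ↔ B u v = 1)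

omit hsurj in
include hnd h0 in
theorem T_eq_zero {u : V} (hu : T u = 0) : u = 0 := by
  refine hnd.1 _ fun x => ?_
  rw [← h0, hu, map_zero]
  rfl

include hnd hsurj h0 in
theorem T_zero : T 0 = 0 := by
  refine hnd.1 _ fun y => ?_
  obtain ⟨x, rfl⟩ := hsurj y
  rw [h0, map_zero]
  rfl

omit hsurj in
include hnd h0 in
theorem T_dep {u v : V} (h : ∃ c : K, T v = c • T u) : ∃ c : K, v = c • u := by
  obtain ⟨c, hc⟩ := h
  refine dep hnd fun x hx => ?_
  rw [← h0] at hx ⊢
  rw [hc, map_smul, LinearMap.smul_apply, hx, smul_zero]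

include hnd hsurj h0 in
theorem T_smul {u v : V} (h : ∃ c : K, v = c • u) : ∃ c : K, T v = c • T u := by
  obtain ⟨c, hc⟩ := h
  refine dep hnd fun y hy => ?_
  obtain ⟨x, rfl⟩ := hsurj y
  rw [h0] at hy ⊢
  rw [hc, map_smul, LinearMap.smul_apply, hy, smul_zero]

include hnd hsurj h0 h1 in
theorem T_add_indep {u v : V} (hv : ¬ ∃ c : K, v = c • u) (hu : ¬ ∃ c : K, u = c • v) :
    T (u + v) = T u + T v := by
  obtain ⟨a, b, hab⟩ := dep₂ hnd (u := T u) (v := T v) (w := T (u + v)) (fun y h2 h3 => by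
    obtain ⟨x, rfl⟩ := hsurj y
    rw [h0] at h2 h3 ⊢
    rw [map_add, LinearMap.add_apply, h2, h3, add_zero])
  have hb : b = 1 := by
    obtain ⟨y, hy0, hy1⟩ := exists_zero_one hnd (u := T u) (v := T v)
      (fun h => hv (T_dep hnd h0 h))
    obtain ⟨x, rfl⟩ := hsurj y
    have h2 : B (T (u + v)) (T x) = 1 := by
      rw [h1, map_add, LinearMap.add_apply, (h0 _ _).1 hy0, (h1 _ _).1 hy1, zero_add]
    rw [hab, map_add, map_smul, map_smul, LinearMap.add_apply, LinearMap.smul_apply,
      LinearMap.smul_apply, hy0, hy1, smul_zero, zero_add, smul_eq_mul, mul_one] at h2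
    exact h2
  have ha : a = 1 := by
    obtain ⟨y, hy0, hy1⟩ := exists_zero_one hnd (u := T v) (v := T u)
      (fun h => hu (T_dep hnd h0 h))
    obtain ⟨x, rfl⟩ := hsurj y
    have h2 : B (T (u + v)) (T x) = 1 := by
      rw [h1, map_add, LinearMap.add_apply, (h0 _ _).1 hy0, (h1 _ _).1 hy1, add_zero]
    rw [hab, map_add, map_smul, map_smul, LinearMap.add_apply, LinearMap.smul_apply,
      LinearMap.smul_apply, hy0, hy1, smul_zero, add_zero, smul_eq_mul, mul_one] at h2
    exact h2
  rw [hab, ha, hb, one_smul, one_smul]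

end

theorem exists_indep (hnd : B.Nondegenerate) (halt : B.IsAlt) {u : V} (hu : u ≠ 0) :
    ∃ z, ¬ ∃ c : K, z = c • u := by
  by_contra hcon
  push Not at hcon
  refine hu (hnd.1 _ fun z => ?_)
  obtain ⟨c, rfl⟩ := hcon z
  rw [map_smul, halt, smul_zero]

theorem indep_symm {u v : V} (hu : u ≠ 0) (h : ¬ ∃ c : K, v = c • u) : ¬ ∃ c : K, u = c • v := by
  rintro ⟨c, hc⟩
  have hc0 : c ≠ 0 := by
    rintro rfl
    exact hu (by rw [hc, zero_smul])
  exact h ⟨c⁻¹, by rw [hc, smul_smul, inv_mul_cancel₀ hc0, one_smul]⟩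

/-- **Core theorem.** -/
theorem core (hnd : B.Nondegenerate) (halt : B.IsAlt) (hsurj : Function.Surjective T)
    (h0 : ∀ u v, B (T u) (T v) = 0 ↔ B u v = 0)
    (h1 : ∀ u v, B (T u) (T v) = 1 ↔ B u v = 1) :
    ∃ σ : K ≃+* K, (∀ u v, T (u + v) = T u + T v) ∧ (∀ (c : K) u, T (c • u) = σ c • T u) ∧
      ∀ u v, B (T u) (T v) = σ (B u v) := by
  classical
  have hT0 := T_zero hnd hsurj h0
  have key : ∀ {u v : V}, u ≠ 0 → (¬ ∃ c : K, v = c • u) → T (u + v) = T u + T v :=
    fun hu h => T_add_indep hnd hsurj h0 h1 h (indep_symm hu h)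
  -- additivity
  have hneg : ∀ u, T (-u) = - T u := by
    intro u
    by_cases hu : u = 0
    · rw [hu, neg_zero, hT0, neg_zero]
    · obtain ⟨z, hz⟩ := exists_indep hnd halt hu
      have e1 : T (u + z) = T u + T z := key hu hz
      have e2 : T (-u + (u + z)) = T (-u) + T (u + z) := by
        refine key (neg_ne_zero.2 hu) ?_
        rintro ⟨c, hc⟩
        refine hz ⟨-c - 1, ?_⟩
        rw [sub_smul, one_smul, neg_smul, ← smul_neg, ← hc]
        abel
      rw [neg_add_cancel_left, e1] at e2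
      have : T (-u) + T u = 0 := by
        have h3 : T z = (T (-u) + T u) + T z := by rw [add_assoc]; exact e2
        exact (left_eq_add.1 (by rw [add_comm (T z)]; exact h3) : _)
      exact eq_neg_of_add_eq_zero_left this
  have hadd : ∀ u v, T (u + v) = T u + T v := by
    intro u v
    by_cases hu : u = 0
    · rw [hu, zero_add, hT0, zero_add]
    by_cases hv : v = 0
    · rw [hv, add_zero, hT0, add_zero]
    by_cases hdep : ∃ c : K, v = c • u
    · obtain ⟨c, rfl⟩ := hdep
      by_cases hs : u + c • u = 0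
      · rw [hs, hT0, show c • u = -u from (eq_neg_of_add_eq_zero_right hs), hneg, add_neg_cancel]
      · obtain ⟨z, hz⟩ := exists_indep hnd halt hu
        have hc0 : c ≠ 0 := by
          rintro rfl
          exact hv (zero_smul _ _)
        have e1 : T ((u + c • u) + z) = T (u + c • u) + T z := by
          refine key hs ?_
          rintro ⟨d, hd⟩
          refine hz ⟨d * (1 + c), ?_⟩
          rw [hd, mul_smul, add_smul, one_smul]
        have e2 : T (c • u + z) = T (c • u) + T z := by
          refine key hv ?_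
          rintro ⟨d, hd⟩
          exact hz ⟨d * c, by rw [hd, mul_smul]⟩
        have e3 : T (u + (c • u + z)) = T u + T (c • u + z) := by
          refine key hu ?_
          rintro ⟨d, hd⟩
          refine hz ⟨d - c, ?_⟩
          rw [sub_smul, ← hd]
          abel
        rw [← add_assoc, e1, e2, ← add_assoc] at e3
        exact add_right_cancel e3
    · exact key hu hdep
  -- semilinearity
  by_cases hV : ∃ u : V, u ≠ 0
  swap
  · push Not at hV
    refine ⟨RingEquiv.refl K, hadd, fun c u => ?_, fun u v => ?_⟩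
    · rw [hV u, smul_zero, hT0, smul_zero]
    · rw [hV (T u), hV u]
      simp
  obtain ⟨u0, hu0⟩ := hV
  have hex : ∀ (u : V) (c : K), ∃ d : K, T (c • u) = d • T u := fun u c =>
    T_smul hnd hsurj h0 ⟨c, rfl⟩
  choose s hs using hex
  have hTne : ∀ {u : V}, u ≠ 0 → T u ≠ 0 := fun hu h => hu (T_eq_zero hnd h0 h)
  have hindT : ∀ {u v : V}, (¬ ∃ c : K, v = c • u) → ¬ ∃ c : K, T v = c • T u :=
    fun h h' => h (T_dep hnd h0 h')
  have hs_indep : ∀ {u v : V}, u ≠ 0 → (¬ ∃ c : K, v = c • u) → ∀ c, s u c = s v c := by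
    intro u v hu h c
    have e1 : T (c • (u + v)) = s (u + v) c • (T u + T v) := by rw [hs, hadd]
    rw [smul_add, hadd, hs, hs, smul_add] at e1
    have e2 : (s u c - s (u + v) c) • T u = (s (u + v) c - s v c) • T v := by
      rw [sub_smul, sub_smul, sub_eq_sub_iff_add_eq_add, e1, add_comm]
    have hv' : s (u + v) c - s v c = 0 := by
      by_contra hne
      exact hindT h ⟨(s (u + v) c - s v c)⁻¹ * (s u c - s (u + v) c), by
        rw [mul_smul, e2, smul_smul, inv_mul_cancel₀ hne, one_smul]⟩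
    rw [hv', zero_smul, smul_eq_zero] at e2
    rcases e2 with e2 | e2
    · rw [sub_eq_zero] at e2 hv'
      rw [e2, hv']
    · exact absurd e2 (hTne hu)
  have hs_all : ∀ {u v : V}, u ≠ 0 → v ≠ 0 → ∀ c, s u c = s v c := by
    intro u v hu hv c
    by_cases h : ∃ c : K, v = c • u
    · obtain ⟨z, hz⟩ := exists_indep hnd halt hu
      have hz' : ¬ ∃ c : K, z = c • v := by
        rintro ⟨d, hd⟩
        obtain ⟨e, he⟩ := h
        exact hz ⟨d * e, by rw [hd, he, mul_smul]⟩
      rw [hs_indep hu hz, hs_indep hv hz']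
    · exact hs_indep hu h c
  have hs' : ∀ (c : K) (u : V), T (c • u) = s u0 c • T u := by
    intro c u
    by_cases hu : u = 0
    · rw [hu, smul_zero, hT0, smul_zero]
    · rw [hs, hs_all hu hu0]
  have hT00 := hTne hu0
  have smul_inj : ∀ {a b : K}, a • T u0 = b • T u0 → a = b := fun {a b} h => by
    have : (a - b) • T u0 = 0 := by rw [sub_smul, h, sub_self]
    exact sub_eq_zero.1 ((smul_eq_zero.1 this).resolve_right hT00)
  let f : K →+* K :=
    { toFun := s u0
      map_one' := smul_inj (by rw [← hs', one_smul, one_smul])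
      map_mul' := fun a b => smul_inj (by rw [← hs', mul_smul, hs', hs', mul_smul])
      map_zero' := smul_inj (by rw [← hs', zero_smul, zero_smul, hT0])
      map_add' := fun a b => smul_inj (by rw [← hs', add_smul, hadd, hs', hs', add_smul]) }
  have hf : ∀ c, f c = s u0 c := fun _ => rfl
  have fsurj : Function.Surjective f := by
    intro c
    obtain ⟨w, hw⟩ := hsurj (c • T u0)
    obtain ⟨d, hd⟩ := T_dep hnd h0 (u := u0) (v := w) ⟨c, hw⟩
    refine ⟨d, smul_inj ?_⟩
    rw [hf, ← hs', ← hd, hw]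
  refine ⟨RingEquiv.ofBijective f ⟨f.injective, fsurj⟩, hadd, hs', fun u v => ?_⟩
  change _ = f (B u v)
  by_cases hc : B u v = 0
  · rw [hc, map_zero, h0, hc]
  · have h2 : B (T ((B u v)⁻¹ • u)) (T v) = 1 := by
      rw [h1, map_smul, LinearMap.smul_apply, smul_eq_mul, inv_mul_cancel₀ hc]
    rw [hs', map_smul, LinearMap.smul_apply, smul_eq_mul, ← hf, map_inv₀] at h2
    have hfc : f (B u v) ≠ 0 := (map_ne_zero f).2 hc
    field_simp at h2
    exact h2

end Pool.Agent.Helper52.IG
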