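import Pool.Agent.Helper52.IG.Core

/-!
# Symplectic transvections in characteristic two
-/

set_option autoImplicit false

namespace Pool.Agent.Helper52.IG

variable {K V : Type*} [Field K] [CharP K 2] [AddCommGroup V] [Module K V]
  {B : LinearMap.BilinForm K V}

theorem alt_symm (halt : B.IsAlt) (u v : V) : B u v = B v u := by
  rw [← halt.neg_eq u v, CharTwo.neg_eq]

theorem add_self_V (K : Type*) {V : Type*} [Field K] [CharP K 2] [AddCommGroup V] [Module K V]
    (x : V) : x + x = 0 := by
  rw [← two_smul K x, CharTwo.two_eq_zero, zero_smul]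

/-- The linear map `x ↦ x + B x v • v`. -/
noncomputable def tvl (B : LinearMap.BilinForm K V) (v : V) : V →ₗ[K] V :=
  LinearMap.id + (B.flip v).smulRight v

omit [CharP K 2] in
theorem tvl_apply (v x : V) : tvl B v x = x + B x v • v := rfl

/-- The transvection `x ↦ x + B x v • v`. -/
noncomputable def tv (halt : B.IsAlt) (v : V) : V ≃ₗ[K] V :=
  LinearEquiv.ofInvolutive (tvl B v) (by
    intro x
    rw [tvl_apply, tvl_apply, map_add, LinearMap.add_apply, map_smul, LinearMap.smul_apply, halt,
      smul_zero, add_zero, add_assoc, add_self_V K, add_zero])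

omit [CharP K 2] in
theorem tv_apply' (v x : V) : tvl B v x = x + B x v • v := rfl

theorem tv_apply (halt : B.IsAlt) (v x : V) : tv halt v x = x + B x v • v := rfl

theorem tv_isom (halt : B.IsAlt) (v x y : V) : B (tv halt v x) (tv halt v y) = B x y := by
  simp only [tv_apply, map_add, map_smul, LinearMap.add_apply, LinearMap.smul_apply, smul_eq_mul,
    halt v, mul_zero, add_zero]
  rw [alt_symm halt v y]
  rw [add_assoc, mul_comm (B y v), CharTwo.add_self_eq_zero, add_zero]

theorem tv_tv (halt : B.IsAlt) (v x : V) : tv halt v (tv halt v x) = x := by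
  rw [tv_apply, tv_apply, map_add, LinearMap.add_apply, map_smul, LinearMap.smul_apply, halt,
      smul_zero, add_zero, add_assoc, add_self_V K, add_zero]

theorem tv_inj (hnd : B.Nondegenerate) (halt : B.IsAlt) {u v : V}
    (h : ∀ x, x + B x u • u = x + B x v • v) : u = v := by
  have h' : ∀ x, B x u • u = B x v • v := fun x => add_left_cancel (h x)
  by_cases hu : u = 0
  · by_contra hne
    have hv : v ≠ 0 := fun hv => hne (by rw [hu, hv])
    refine hv (hnd.1 _ fun x => ?_)
    have h2 := h' x
    rw [hu, smul_zero] at h2
    rw [alt_symm halt]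
    exact (smul_eq_zero.1 h2.symm).resolve_right hv
  · obtain ⟨x, hx⟩ : ∃ x, B x u ≠ 0 := by
      by_contra hcon
      push Not at hcon
      exact hu (hnd.1 _ fun x => by rw [alt_symm halt]; exact hcon x)
    set c := (B x u)⁻¹ * B x v with hc
    have huc : u = c • v := by
      rw [hc, mul_smul, ← h' x, smul_smul, inv_mul_cancel₀ hx, one_smul]
    have hv : v ≠ 0 := by
      rintro rfl
      exact hu (by rw [huc, smul_zero])
    have h3 := h' x
    rw [huc, map_smul, smul_smul, smul_eq_mul] at h3
    have h4 : c * B x v * c = B x v := by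
      have : (c * B x v * c - B x v) • v = 0 := by rw [sub_smul, h3, sub_self]
      exact sub_eq_zero.1 ((smul_eq_zero.1 this).resolve_right hv)
    have hxv : B x v ≠ 0 := by
      intro h0
      rw [huc, map_smul, h0, smul_zero] at hx
      exact hx rfl
    have h5 : c * c = 1 := by
      apply mul_right_cancel₀ hxv
      rw [one_mul]
      linear_combination h4
    have h6 : (c + 1) ^ 2 = 0 := by
      rw [CharTwo.add_sq, one_pow, sq, h5, CharTwo.add_self_eq_zero]
    have h7 : c = 1 := by
      rw [← CharTwo.add_eq_zero]
      exact pow_eq_zero_iff (two_ne_zero) |>.1 h6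
    rw [huc, h7, one_smul]

end Pool.Agent.Helper52.IG
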