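import Pool.Agent.Helper52.IG.Sp

/-!
# The coloured graph of the symplectic transvections
-/

set_option autoImplicit false

namespace Pool.Agent.Helper52.IG

section conj

variable {K V : Type*} [Field K] [AddCommGroup V] [Module K V]

/-- Conjugation of a linear map by a semilinear bijection. -/
def cj (T : V ≃+ V) (σ : K ≃+* K) (hT : ∀ (c : K) x, T (c • x) = σ c • T x)
    (g : V ≃ₗ[K] V) : V ≃ₗ[K] V where
  toFun x := T (g (T.symm x))
  map_add' x y := by simp
  map_smul' c x := by
    have h : T.symm (c • x) = σ.symm c • T.symm x := by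
      apply T.injective
      rw [hT]
      simp
    simp [h, hT]
  invFun x := T (g.symm (T.symm x))
  left_inv x := by simp
  right_inv x := by simp

theorem cj_apply {T : V ≃+ V} {σ : K ≃+* K} (hT : ∀ (c : K) x, T (c • x) = σ c • T x)
    (g : V ≃ₗ[K] V) (x : V) : cj T σ hT g x = T (g (T.symm x)) := rfl

theorem symm_smul {T : V ≃+ V} {σ : K ≃+* K} (hT : ∀ (c : K) x, T (c • x) = σ c • T x)
    (c : K) (x : V) : T.symm (c • x) = σ.symm c • T.symm x := by
  apply T.injective
  rw [hT]
  simp

/-- Conjugation by a semilinear bijection as an automorphism of a group. -/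
def cjL (T : V ≃+ V) (σ : K ≃+* K) (hT : ∀ (c : K) x, T (c • x) = σ c • T x)
    (L : Subgroup (V ≃ₗ[K] V)) (h1 : ∀ g ∈ L, cj T σ hT g ∈ L)
    (h2 : ∀ g ∈ L, cj T.symm σ.symm (symm_smul hT) g ∈ L) : L ≃* L where
  toFun g := ⟨cj T σ hT g.1, h1 _ g.2⟩
  invFun g := ⟨cj T.symm σ.symm (symm_smul hT) g.1, h2 _ g.2⟩
  left_inv g := by
    apply Subtype.ext
    apply LinearEquiv.ext
    intro x
    simp [cj_apply]
  right_inv g := by
    apply Subtype.ext
    apply LinearEquiv.ext
    intro x
    simp [cj_apply]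
  map_mul' g h := by
    apply Subtype.ext
    apply LinearEquiv.ext
    intro x
    simp [cj_apply]

end conj

variable {K V : Type*} [Field K] [CharP K 2] [AddCommGroup V] [Module K V]
  {B : LinearMap.BilinForm K V}

theorem tv_mul_self (halt : B.IsAlt) (v : V) : tv halt v * tv halt v = 1 := by
  apply LinearEquiv.ext
  intro x
  exact tv_tv halt v x

theorem tv_conj (halt : B.IsAlt) (u v x : V) :
    tv halt u (tv halt v (tv halt u x)) = x + B x (tv halt u v) • tv halt u v := by
  rw [tv_apply halt v, map_add, map_smul, tv_tv]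
  congr 2
  rw [← tv_isom halt u, tv_tv]

theorem sq_iff (hnd : B.Nondegenerate) (halt : B.IsAlt) {u v : V} (hu : u ≠ 0) :
    (tv halt u * tv halt v) ^ 2 = 1 ↔ B u v = 0 := by
  have h1 : (tv halt u * tv halt v) ^ 2 = 1 ↔ ∀ x, tv halt u (tv halt v (tv halt u x)) =
      tv halt v x := by
    constructor
    · intro h x
      have h2 : (tv halt u * tv halt v) ^ 2 = tv halt u * tv halt v * tv halt u * tv halt v := by
        rw [sq]; group
      rw [h2] at h
      have h3 := congrArg (fun g : V ≃ₗ[K] V => g (tv halt v x)) h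
      simp only [LinearEquiv.mul_apply, tv_tv] at h3
      exact h3
    · intro h
      apply LinearEquiv.ext
      intro x
      rw [sq]
      simp only [LinearEquiv.mul_apply]
      rw [h, tv_tv]
      rfl
  rw [h1]
  constructor
  · intro h
    have h2 : tv halt u v = v := tv_inj hnd halt fun x => by
      rw [← tv_conj, h, tv_apply]
    rw [tv_apply, add_eq_left, smul_eq_zero, alt_symm halt] at h2
    exact h2.resolve_right hu
  · intro h x
    rw [tv_conj]
    have h2 : tv halt u v = v := by
      rw [tv_apply, alt_symm halt, h, zero_smul, add_zero]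
    rw [h2, tv_apply]

theorem cube_iff (hnd : B.Nondegenerate) (halt : B.IsAlt) {u v : V} :
    (tv halt u * tv halt v) ^ 3 = 1 ↔ B u v = 1 ∨ u = v := by
  have h1 : (tv halt u * tv halt v) ^ 3 = 1 ↔ ∀ x, tv halt u (tv halt v (tv halt u x)) =
      tv halt v (tv halt u (tv halt v x)) := by
    constructor
    · intro h x
      have h2 : (tv halt u * tv halt v) ^ 3 =
          tv halt u * tv halt v * tv halt u * tv halt v * tv halt u * tv halt v := by
        rw [pow_succ, sq]; group
      rw [h2] at h
      have h3 := congrArg (fun g : V ≃ₗ[K] V => g (tv halt v (tv halt u (tv halt v x)))) h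
      simp only [LinearEquiv.mul_apply, tv_tv] at h3
      exact h3
    · intro h
      apply LinearEquiv.ext
      intro x
      rw [pow_succ, sq]
      simp only [LinearEquiv.mul_apply]
      rw [h, tv_tv, tv_tv, tv_tv]
      rfl
  rw [h1]
  have h2 : tv halt u v = v + B u v • u := by rw [tv_apply, alt_symm halt]
  have h3 : tv halt v u = u + B u v • v := rfl
  constructor
  · intro h
    have h4 : tv halt u v = tv halt v u := tv_inj hnd halt fun x => by
      rw [← tv_conj, h, tv_conj]
    rw [h2, h3] at h4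
    have h5 : (B u v - 1) • (u - v) = 0 := by
      rw [sub_smul, smul_sub, one_smul]
      have : B u v • u - B u v • v = u - v := by
        rw [sub_eq_sub_iff_add_eq_add, add_comm, h4]
      rw [this, sub_self]
    rcases smul_eq_zero.1 h5 with h5 | h5
    · exact Or.inl (sub_eq_zero.1 h5)
    · exact Or.inr (sub_eq_zero.1 h5)
  · rintro (h | rfl) x
    · rw [tv_conj, tv_conj, h2, h3, h, one_smul, one_smul, add_comm v u]
    · rfl

theorem mul_eq_one_iff' (hnd : B.Nondegenerate) (halt : B.IsAlt) {u v : V} :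
    tv halt u * tv halt v = 1 ↔ u = v := by
  constructor
  · intro h
    refine tv_inj hnd halt fun x => ?_
    have h3 := congrArg (fun g : V ≃ₗ[K] V => g (tv halt v x)) h
    simp only [LinearEquiv.mul_apply, tv_tv] at h3
    exact h3
  · rintro rfl
    exact tv_mul_self halt u

theorem order_three_iff (hnd : B.Nondegenerate) (halt : B.IsAlt) {u v : V} :
    orderOf (tv halt u * tv halt v) = 3 ↔ B u v = 1 := by
  rw [orderOf_eq_prime_iff, cube_iff hnd halt, ne_eq, mul_eq_one_iff' hnd halt]
  constructor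
  · rintro ⟨h | h, h'⟩
    · exact h
    · exact absurd h h'
  · intro h
    refine ⟨Or.inl h, ?_⟩
    rintro rfl
    rw [halt] at h
    exact zero_ne_one h

theorem order_two_iff (hnd : B.Nondegenerate) (halt : B.IsAlt) {u v : V} (hu : u ≠ 0)
    (huv : u ≠ v) : orderOf (tv halt u * tv halt v) = 2 ↔ B u v = 0 := by
  rw [orderOf_eq_prime_iff, sq_iff hnd halt hu, ne_eq, mul_eq_one_iff' hnd halt]
  exact and_iff_left huv

/-- transitivity -/
theorem exists_move [Finite K] (hnd : B.Nondegenerate) (halt : B.IsAlt) {u v : V} (hu : u ≠ 0)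
    (hv : v ≠ 0) : ∃ g : V ≃ₗ[K] V, (∀ x y, B (g x) (g y) = B x y) ∧ g u = v := by
  have key : ∀ u v : V, B u v ≠ 0 → ∃ g : V ≃ₗ[K] V, (∀ x y, B (g x) (g y) = B x y) ∧
      g u = v := by
    intro u v h
    obtain ⟨c, hc⟩ : ∃ c : K, c ^ 2 = (B u v)⁻¹ := by
      have : Function.Surjective (frobenius K 2) :=
        Finite.surjective_of_injective (frobenius_inj K 2)
      exact this _
    refine ⟨tv halt (c • (u + v)), tv_isom halt _, ?_⟩
    rw [tv_apply, map_smul, map_add, halt, zero_add, smul_smul, smul_eq_mul,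
      show c * B u v * c = c ^ 2 * B u v by ring, hc, inv_mul_cancel₀ h, one_smul, ← add_assoc,
      add_self_V K, zero_add]
  have hex : ∀ u : V, u ≠ 0 → ∃ x, B u x ≠ 0 := by
    intro u hu
    by_contra hcon
    push Not at hcon
    exact hu (hnd.1 _ hcon)
  obtain ⟨w, hw1, hw2⟩ : ∃ w, B u w ≠ 0 ∧ B w v ≠ 0 := by
    obtain ⟨x, hx⟩ := hex u hu
    obtain ⟨y, hy⟩ := hex v hv
    rw [alt_symm halt] at hy
    by_cases h1 : B x v = 0
    · by_cases h2 : B u y = 0
      · refine ⟨x + y, ?_, ?_⟩
        · rwa [map_add, h2, add_zero]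
        · rwa [map_add, LinearMap.add_apply, h1, zero_add]
      · exact ⟨y, h2, hy⟩
    · exact ⟨x, hx, h1⟩
  obtain ⟨g, hg, hgu⟩ := key u w hw1
  obtain ⟨h, hh, hhw⟩ := key w v hw2
  refine ⟨h * g, fun x y => ?_, ?_⟩
  · rw [LinearEquiv.mul_apply, LinearEquiv.mul_apply, hh, hg]
  · rw [LinearEquiv.mul_apply, hgu, hhw]

end Pool.Agent.Helper52.IG
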